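import Mathlib
import Pool.Agent.H.MP_694475_co.Final
import Pool.Agent.H.MP_694475_co.AD.Up
import Pool.Agent.H.MP_694475_co.AD.Val

set_option autoImplicit false

namespace Pool.Agent.Results.MP_694475_co.AffineDerivatives

/-- The covering radius of the first-order Reed-Muller code `RM(1, n)`: the least `r` such that
every Boolean function `f` on `F_2 ^ n` is at Hamming distance at most `r` from some affine
function `x ↦ b0 + ∑ i, b i * x i`. -/
noncomputable def rho (n : ℕ) : ℕ :=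
  sInf {r : ℕ | ∀ f : (Fin n → ZMod 2) → ZMod 2, ∃ (b0 : ZMod 2) (b : Fin n → ZMod 2),
    hammingDist f (fun x => b0 + ∑ i, b i * x i) ≤ r}

/-- The Boolean functions `f` on `F_2 ^ n` for which the derivatives `x ↦ f (x + h) + f x` are
affine for all `h` in some subspace `K` of codimension at most `k`. For `k = n` (and also for
`k ≥ n`) these are all Boolean functions. -/
def C (n k : ℕ) : Set ((Fin n → ZMod 2) → ZMod 2) :=
  {f | ∃ K : Submodule (ZMod 2) (Fin n → ZMod 2), n ≤ Module.finrank (ZMod 2) K + k ∧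
    ∀ h ∈ K, ∃ (c : ZMod 2) (b : Fin n → ZMod 2), ∀ x, f (x + h) + f x = c + ∑ i, b i * x i}

/-- `r` is the covering radius of `RM(1, n)` within the set `F` of Boolean functions: the least
`r` such that every function in `F` is at Hamming distance at most `r` from an affine function. -/
def IsCoveringRadiusOn {n : ℕ} (F : Set ((Fin n → ZMod 2) → ZMod 2)) (r : ℕ) : Prop :=
  IsLeast {r : ℕ | ∀ f ∈ F, ∃ (b0 : ZMod 2) (b : Fin n → ZMod 2),
    hammingDist f (fun x => b0 + ∑ i, b i * x i) ≤ r} r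

open Pool.Agent.H.AD694

lemma rho_mem {m : ℕ} (hm : 1 ≤ m) : Cov m (rho m) :=
  Nat.sInf_mem (s := {r : ℕ | ∀ f : (Fin m → ZMod 2) → ZMod 2, ∃ (b0 : ZMod 2)
    (b : Fin m → ZMod 2), hammingDist f (fun x => b0 + ∑ i, b i * x i) ≤ r})
    ⟨2 ^ (m - 1), cov_half hm⟩

lemma rho_le_of {m r : ℕ} (h : Cov m r) : rho m ≤ r := Nat.sInf_le h

lemma exists_far {m : ℕ} (hm : 1 ≤ m) : ∃ g : V m → ZMod 2,
    ∀ φ : V m →ₗ[ZMod 2] ZMod 2, |S g φ| ≤ 2 ^ m - 2 * (rho m : ℤ) := by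
  have hpow : (2:ℤ) ^ m = 2 * 2 ^ (m - 1) := by
    rw [← pow_succ']; congr 1; omega
  rcases Nat.eq_zero_or_pos (rho m) with h0 | h0
  · refine ⟨fun _ => 0, fun φ => ?_⟩
    rw [h0]
    have h1 : |S (fun _ : V m => (0 : ZMod 2)) φ| ≤ ∑ x : V m, |sgn (0 + φ x)| :=
      Finset.abs_sum_le_sum_abs _ _
    have h2 : ∀ x : V m, |sgn (0 + φ x)| = 1 := by
      intro x
      rcases sgn_eq (0 + φ x) with h | h <;> rw [h] <;> norm_num
    simp_rw [h2] at h1
    simp only [Finset.sum_const, Finset.card_univ, nsmul_eq_mul, mul_one] at h1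
    rw [vcard] at h1
    simpa using h1
  · have hnot : ¬ Cov m (rho m - 1) := by
      intro h
      have := rho_le_of h
      omega
    unfold Cov at hnot
    push Not at hnot
    obtain ⟨g, hg⟩ := hnot
    refine ⟨g, fun φ => ?_⟩
    have h1 : ¬ ((2:ℤ) ^ m - 2 * ((rho m - 1 : ℕ) : ℤ) ≤ |S g φ|) := by
      intro h
      obtain ⟨b0, b, hb⟩ := (cov_iff g (rho m - 1)).2 ⟨φ, h⟩
      exact absurd hb (not_le.2 (hg b0 b))
    obtain ⟨d, hd⟩ := S_even g φ
    push_cast [Nat.cast_sub h0] at h1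
    rw [hpow] at hd h1 ⊢
    generalize (2:ℤ) ^ (m - 1) = P at hd h1 ⊢
    rw [hd] at h1 ⊢
    rcases abs_cases (2 * P - 2 * (d : ℤ)) with ⟨e, _⟩ | ⟨e, _⟩ <;> rw [e] at h1 ⊢ <;> omega

lemma core (s t k : ℕ) (h1 : 2 * s + 1 ≤ k) (h2 : k ≤ 2 * s + 2) :
    IsCoveringRadiusOn (C (2 * s + 1 + 2 * t) k)
      (2 ^ (2 * s + 2 * t) - 2 ^ t * (2 ^ (2 * s) - rho (2 * s + 1))) := by
  set m := 2 * s + 1 with hm
  have hmem := rho_mem (m := m) (by omega)
  have hhalf : rho m ≤ 2 ^ (2 * s) := by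
    have := rho_le_of (cov_half (n := m) (by omega))
    rwa [hm, Nat.add_sub_cancel, ← hm] at this
  have hlow : 2 ^ (2 * s) ≤ rho m + 2 ^ s := cov_low s (rho m) hmem
  have hhalf' : (rho m : ℤ) ≤ 2 ^ (2 * s) := by exact_mod_cast hhalf
  have hlow' : (2:ℤ) ^ (2 * s) ≤ rho m + 2 ^ s := by exact_mod_cast hlow
  have hpm : (2:ℤ) ^ m = 2 * 2 ^ (2 * s) := by rw [hm]; ring
  have hpn : (2:ℤ) ^ (m + 2 * t) = 2 * 2 ^ (2 * s + 2 * t) := by rw [hm]; ring
  have hpn' : (2:ℕ) ^ (2 * s + 2 * t) = 2 ^ t * (2 ^ t * 2 ^ (2 * s)) := by ring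
  have hR : 2 ^ t * (2 ^ (2 * s) - rho m) ≤ 2 ^ (2 * s + 2 * t) := by
    rw [hpn']
    apply Nat.mul_le_mul_left
    calc 2 ^ (2 * s) - rho m ≤ 2 ^ (2 * s) := Nat.sub_le _ _
      _ = 1 * 2 ^ (2 * s) := (one_mul _).symm
      _ ≤ 2 ^ t * 2 ^ (2 * s) := Nat.mul_le_mul_right _ Nat.one_le_two_pow
  have hcast : (((2 ^ (2 * s + 2 * t) - 2 ^ t * (2 ^ (2 * s) - rho m) : ℕ)) : ℤ) =
      2 ^ (2 * s + 2 * t) - 2 ^ t * (2 ^ (2 * s) - (rho m : ℤ)) := by
    rw [Nat.cast_sub hR, Nat.cast_mul, Nat.cast_sub hhalf]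
    push_cast
    ring
  constructor
  · rintro f ⟨K, hK, hder⟩
    have hK2 : 2 * t ≤ Module.finrank (ZMod 2) K + 1 := by
      obtain ⟨q, hq⟩ : ∃ q, q = Module.finrank (ZMod 2) K := ⟨_, rfl⟩
      have hK1 : m + 2 * t ≤ q + k := by rw [hq]; exact hK
      rw [← hq]
      omega
    have hA : AffOn f K := by
      intro h hh
      obtain ⟨c, b, hb⟩ := hder h hh
      obtain ⟨φ, hφ⟩ := exists_form b
      exact ⟨c, φ, fun x => by rw [hb, hφ]⟩
    have hMM : (2 ^ m - 2 * (rho m : ℤ)) ^ 2 ≤ 2 ^ (m + 1) := by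
      have e : (2:ℤ) ^ (m + 1) = (2 * 2 ^ s) ^ 2 := by rw [hm]; ring
      rw [e, hpm]
      apply pow_le_pow_left₀ <;> linarith
    obtain ⟨φ, hφ⟩ := main_up m (2 ^ m - 2 * (rho m : ℤ)) (by rw [hpm]; linarith) hMM
      (by
        intro U _ _ _ hU g
        have hfin : Module.finrank (ZMod 2) U = Module.finrank (ZMod 2) (V m) := by
          rw [hU]; simp
        let e : U ≃ₗ[ZMod 2] V m := LinearEquiv.ofFinrankEq U (V m) hfin
        obtain ⟨φ', hφ'⟩ := (cov_iff (fun y => g (e.symm y)) (rho m)).1 (hmem _)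
        refine ⟨φ'.comp e.toLinearMap, ?_⟩
        have h3 := S_equiv e g (φ'.comp e.toLinearMap)
        rw [← h3]
        have h4 : (φ'.comp e.toLinearMap).comp e.symm.toLinearMap = φ' := by
          ext x
          simp
        rw [h4]
        exact hφ') t (V (m + 2 * t)) (by simp) f K hK2 hA
    apply (cov_iff f _).2
    refine ⟨φ, ?_⟩
    rw [hcast, hpn]
    rw [hpm] at hφ
    linarith
  · intro r hr
    obtain ⟨g, hg⟩ := exists_far (m := m) (by omega)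
    obtain ⟨f, K, hK, hA, hf⟩ := main_low m _ g hg t
    have hfC : f ∈ C (m + 2 * t) k := by
      obtain ⟨q, hq⟩ : ∃ q, q = Module.finrank (ZMod 2) K := ⟨_, rfl⟩
      have hK1 : q = 2 * t := hq.trans hK
      have hK3 : m + 2 * t ≤ q + k := by omega
      rw [hq] at hK3
      refine ⟨K, hK3, ?_⟩
      intro h hh
      obtain ⟨c, β, hβ⟩ := hA h hh
      obtain ⟨b, hb⟩ := exists_lin β
      exact ⟨c, b, fun x => by rw [hβ, hb]⟩
    obtain ⟨φ, hφ⟩ := (cov_iff f r).1 (hr f hfC)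
    have h5 := hf φ
    have h6 : (((2 ^ (2 * s + 2 * t) - 2 ^ t * (2 ^ (2 * s) - rho m) : ℕ)) : ℤ) ≤ r := by
      rw [hcast]
      rw [hpn] at hφ
      rw [hpm] at h5
      linarith
    exact_mod_cast h6

lemma rho_nine : rho 9 = 242 := by
  have h := Pool.Agent.H.MP_694475_co.covering_radius_nine
  apply le_antisymm
  · apply rho_le_of
    intro f
    obtain ⟨g, ⟨b0, b, hg⟩, hd⟩ := h.1 f
    refine ⟨b0, b, ?_⟩
    have : g = fun x => b0 + ∑ i, b i * x i := funext hg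
    rw [← this]
    exact hd
  · apply h.2
    intro f
    obtain ⟨b0, b, hb⟩ := rho_mem (m := 9) (by norm_num) f
    exact ⟨_, ⟨b0, b, fun x => rfl⟩, hb⟩

lemma rho_small (s : ℕ) (hs : s ≤ 3) : 2 ^ (2 * s) - rho (2 * s + 1) = 2 ^ s := by
  have hlow := cov_low s (rho (2 * s + 1)) (rho_mem (by omega))
  have hup : rho (2 * s + 1) ≤ 2 ^ (2 * s) - 2 ^ s := by
    interval_cases s
    · exact rho_le_of cov_one
    · exact rho_le_of cov_three
    · exact rho_le_of (cov_large (n := 5) (by decide) (by norm_num) 0 (by norm_num))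
    · exact rho_le_of (cov_large (n := 7) (by decide) (by norm_num) 1 (by norm_num))
  have h3 : 2 ^ s ≤ 2 ^ (2 * s) := Nat.pow_le_pow_right (by norm_num) (by omega)
  generalize 2 ^ (2 * s) = P at hlow hup h3 ⊢
  generalize 2 ^ s = Q at hlow hup h3 ⊢
  omega

lemma main (n k m : ℕ) (hn : Odd n) (hk1 : 1 ≤ k) (hkn : k ≤ n)
    (hm : m = 2 * ((k - 1) / 2) + 1) :
    IsCoveringRadiusOn (C n k) (2 ^ (n - 1) - 2 ^ ((n - m) / 2) * (2 ^ (m - 1) - rho m)) := by
  obtain ⟨a, ha⟩ := hn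
  obtain ⟨s, hs⟩ : ∃ s, s = (k - 1) / 2 := ⟨_, rfl⟩
  obtain ⟨t, ht⟩ : ∃ t, n = 2 * s + 1 + 2 * t := ⟨a - s, by omega⟩
  have hm' : m = 2 * s + 1 := by rw [hm, ← hs]
  subst hm'
  subst ht
  have e1 : 2 * s + 1 + 2 * t - 1 = 2 * s + 2 * t := by omega
  have e2 : (2 * s + 1 + 2 * t - (2 * s + 1)) / 2 = t := by omega
  have e3 : 2 * s + 1 - 1 = 2 * s := by omega
  rw [e1, e2, e3]
  exact core s t k (by omega) (by omega)

/-- Let `n` be odd, `1 ≤ k ≤ n`, and let `m` be the largest odd number that is at most `k`. Within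
the functions with affine derivatives along a subspace of codimension at most `k`, the covering
radius of `RM(1, n)` is `2 ^ (n - 1) - 2 ^ ((n - m) / 2) * (2 ^ (m - 1) - rho m)`; explicitly it is
`2 ^ (n - 1) - 2 ^ ((n - 1) / 2)` for `k ≤ 8` and `2 ^ (n - 1) - 14 * 2 ^ ((n - 9) / 2)` for
`k = 9` and `k = 10`. -/
theorem result (n k m : ℕ) (hn : Odd n) (hk1 : 1 ≤ k) (hkn : k ≤ n)
    (hm : m = 2 * ((k - 1) / 2) + 1) :
    IsCoveringRadiusOn (C n k) (2 ^ (n - 1) - 2 ^ ((n - m) / 2) * (2 ^ (m - 1) - rho m)) ∧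
    (k ≤ 8 → IsCoveringRadiusOn (C n k) (2 ^ (n - 1) - 2 ^ ((n - 1) / 2))) ∧
    (k = 9 ∨ k = 10 → IsCoveringRadiusOn (C n k) (2 ^ (n - 1) - 14 * 2 ^ ((n - 9) / 2))) := by
  refine ⟨main n k m hn hk1 hkn hm, ?_, ?_⟩
  · intro hk8
    have h := main n k _ hn hk1 hkn rfl
    obtain ⟨s, hs⟩ : ∃ s, s = (k - 1) / 2 := ⟨_, rfl⟩
    obtain ⟨a, ha⟩ := hn
    rw [← hs, Nat.add_sub_cancel, rho_small s (by omega), ← pow_add] at h
    have e : (n - (2 * s + 1)) / 2 + s = (n - 1) / 2 := by omega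
    rwa [e] at h
  · intro hk
    have h := main n k _ hn (by omega) hkn rfl
    have hs : (k - 1) / 2 = 4 := by omega
    rw [hs] at h
    norm_num at h
    rw [rho_nine] at h
    norm_num at h
    rwa [mul_comm] at h

end Pool.Agent.Results.MP_694475_co.AffineDerivatives
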