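import Pool.Agent.H.MP_694475_co.Final

/-! The covering radius of the first-order Reed-Muller code of length 512 is 242. -/

namespace Pool.Agent.Results.MP_694475_co.RadiusNine

open Pool.Agent.H.MP_694475_co

/-- The covering radius of `RM(1, 9)` is `242`. -/
theorem result : IsCoveringRadius (RM1 9) 242 := covering_radius_nine

end Pool.Agent.Results.MP_694475_co.RadiusNine
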