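import Mathlib
import Pool.Agent.H.MP_694475_co.Final
import Pool.Agent.H.MP_694475_co.AD.Up
import Pool.Agent.H.MP_694475_co.AD.Val
import Pool.Agent.H.MP_694475_co.Sb.Up
import Pool.Agent.H.MP_694475_co.Sb.Low

set_option autoImplicit false

namespace Pool.Agent.Results.MP_694475_co.SymmetricBlocks

/-- The covering radius of the first-order Reed-Muller code `RM(1, n)`: the least `r` such that
every Boolean function `f` on `F_2 ^ n` is at Hamming distance at most `r` from some affine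
function `x ↦ b0 + ∑ i, b i * x i`. -/
noncomputable def rho (n : ℕ) : ℕ :=
  sInf {r : ℕ | ∀ f : (Fin n → ZMod 2) → ZMod 2, ∃ (b0 : ZMod 2) (b : Fin n → ZMod 2),
    hammingDist f (fun x => b0 + ∑ i, b i * x i) ≤ r}

/-- The partition of the `n` variables is given by a function `c : Fin n → Fin n` (the block of
the variable `i` is `c i`; every partition has this form). The number of ones of `x` in the
block `b`. -/
def ones {n : ℕ} (c : Fin n → Fin n) (b : Fin n) (x : Fin n → ZMod 2) : ℕ :=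
  (Finset.univ.filter fun i => c i = b ∧ x i = 1).card

/-- The Boolean functions which are symmetric within every block: `f x` depends only on the
numbers of ones of `x` in the blocks. -/
def BlockSym {n : ℕ} (c : Fin n → Fin n) : Set ((Fin n → ZMod 2) → ZMod 2) :=
  {f | ∀ x y, (∀ b, ones c b x = ones c b y) → f x = f y}

/-- The number of blocks with an odd number of variables. -/
def oddBlocks {n : ℕ} (c : Fin n → Fin n) : ℕ :=
  (Finset.univ.filter fun b => Odd (Finset.univ.filter fun i => c i = b).card).card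

/-- `r` is the covering radius of `RM(1, n)` within the set `F` of Boolean functions: the least
`r` such that every function in `F` is at Hamming distance at most `r` from an affine function. -/
def IsCoveringRadiusOn {n : ℕ} (F : Set ((Fin n → ZMod 2) → ZMod 2)) (r : ℕ) : Prop :=
  IsLeast {r : ℕ | ∀ f ∈ F, ∃ (b0 : ZMod 2) (b : Fin n → ZMod 2),
    hammingDist f (fun x => b0 + ∑ i, b i * x i) ≤ r} r

open Pool.Agent.H.AD694 Pool.Agent.H.SB694

lemma rho_mem {m : ℕ} (hm : 1 ≤ m) : Cov m (rho m) :=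
  Nat.sInf_mem (s := {r : ℕ | ∀ f : (Fin m → ZMod 2) → ZMod 2, ∃ (b0 : ZMod 2)
    (b : Fin m → ZMod 2), hammingDist f (fun x => b0 + ∑ i, b i * x i) ≤ r})
    ⟨2 ^ (m - 1), cov_half hm⟩

lemma rho_le_of {m r : ℕ} (h : Cov m r) : rho m ≤ r := Nat.sInf_le h

lemma exists_far {m : ℕ} (hm : 1 ≤ m) : ∃ g : V m → ZMod 2,
    ∀ φ : V m →ₗ[ZMod 2] ZMod 2, |S g φ| ≤ 2 ^ m - 2 * (rho m : ℤ) := by
  have hpow : (2:ℤ) ^ m = 2 * 2 ^ (m - 1) := by
    rw [← pow_succ']; congr 1; omega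
  rcases Nat.eq_zero_or_pos (rho m) with h0 | h0
  · refine ⟨fun _ => 0, fun φ => ?_⟩
    rw [h0]
    have h1 : |S (fun _ : V m => (0 : ZMod 2)) φ| ≤ ∑ x : V m, |sgn (0 + φ x)| :=
      Finset.abs_sum_le_sum_abs _ _
    have h2 : ∀ x : V m, |sgn (0 + φ x)| = 1 := by
      intro x
      rcases sgn_eq (0 + φ x) with h | h <;> rw [h] <;> norm_num
    simp_rw [h2] at h1
    simp only [Finset.sum_const, Finset.card_univ, nsmul_eq_mul, mul_one] at h1
    rw [vcard] at h1
    simpa using h1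
  · have hnot : ¬ Cov m (rho m - 1) := by
      intro h
      have := rho_le_of h
      omega
    unfold Cov at hnot
    push Not at hnot
    obtain ⟨g, hg⟩ := hnot
    refine ⟨g, fun φ => ?_⟩
    have h1 : ¬ ((2:ℤ) ^ m - 2 * ((rho m - 1 : ℕ) : ℤ) ≤ |S g φ|) := by
      intro h
      obtain ⟨b0, b, hb⟩ := (cov_iff g (rho m - 1)).2 ⟨φ, h⟩
      exact absurd hb (not_le.2 (hg b0 b))
    obtain ⟨d, hd⟩ := S_even g φ
    push_cast [Nat.cast_sub h0] at h1
    rw [hpow] at hd h1 ⊢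
    generalize (2:ℤ) ^ (m - 1) = P at hd h1 ⊢
    rw [hd] at h1 ⊢
    rcases abs_cases (2 * P - 2 * (d : ℤ)) with ⟨e, _⟩ | ⟨e, _⟩ <;> rw [e] at h1 ⊢ <;> omega

lemma T_trans {ι κ : Type} [Fintype ι] [DecidableEq ι] [Fintype κ] [DecidableEq κ] (e : ι ≃ κ)
    (f : (ι → ZMod 2) → ZMod 2) (a : κ → ZMod 2) :
    T f (a ∘ e) = T (fun z : κ → ZMod 2 => f (z ∘ e)) a := by
  unfold T
  rw [← Equiv.sum_comp (Equiv.arrowCongr e (Equiv.refl (ZMod 2))).symm]
  refine Finset.sum_congr rfl fun z _ => ?_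
  have h1 : (Equiv.arrowCongr e (Equiv.refl (ZMod 2))).symm z = z ∘ e := by
    funext i
    simp
  rw [h1]
  congr 2
  exact Equiv.sum_comp e (fun i => a i * z i)

lemma S_eq_T {m : ℕ} (f : V m → ZMod 2) (φ : V m →ₗ[ZMod 2] ZMod 2) (b : V m)
    (h : ∀ x, φ x = ∑ i, b i * x i) : S f φ = T f b := by
  unfold S T
  refine Finset.sum_congr rfl fun x _ => ?_
  rw [h]

lemma ones_swap {n : ℕ} (c : Fin n → Fin n) (b : Fin n) {i j : Fin n} (h : c i = c j)
    (x : Fin n → ZMod 2) : ones c b (x ∘ Equiv.swap i j) = ones c b x := by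
  have hc : ∀ v, c (Equiv.swap i j v) = c v := by
    intro v
    by_cases h1 : v = i
    · rw [h1, Equiv.swap_apply_left, h]
    · by_cases h2 : v = j
      · rw [h2, Equiv.swap_apply_right, h]
      · rw [Equiv.swap_apply_of_ne_of_ne h1 h2]
  unfold ones
  refine Finset.card_equiv (Equiv.swap i j) fun v => ?_
  simp only [Finset.mem_filter, Finset.mem_univ, true_and, hc, Function.comp_apply]

lemma symB_of {n : ℕ} {c : Fin n → Fin n} {f : (Fin n → ZMod 2) → ZMod 2}
    (hf : f ∈ BlockSym c) : SymB c f := by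
  intro i j h x
  exact hf _ _ fun b => ones_swap c b h x

lemma Fb_mem {n : ℕ} (c : Fin n → Fin n) (O : Finset (Fin n)) (g : (O → ZMod 2) → ZMod 2) :
    Fb c O g ∈ BlockSym c := by
  intro x y h
  have h1 : ∀ b, wt c b x = wt c b y := h
  unfold Fb
  simp only [h1]

lemma core {n : ℕ} (hn : Odd n) (c : Fin n → Fin n) {r : ℕ} (hr : oddBlocks c = r) :
    1 ≤ r ∧ r ≤ n ∧ r % 2 = 1 ∧
    IsCoveringRadiusOn (BlockSym c) (2 ^ (n - 1) - 2 ^ ((n - r) / 2) * (2 ^ (r - 1) - rho r)) := by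
  have hO : (odd c).card = r := hr
  obtain ⟨hle, hpar⟩ := odd_le c
  rw [Fintype.card_fin, hO] at hle hpar
  have hn2 : n % 2 = 1 := Nat.odd_iff.1 hn
  rw [hn2] at hpar
  have hr1 : 1 ≤ r := by omega
  refine ⟨hr1, hle, hpar, ?_⟩
  obtain ⟨t, ht⟩ : ∃ t, n = r + 2 * t := ⟨(n - r) / 2, by omega⟩
  have ht' : (n - r) / 2 = t := by omega
  rw [ht']
  have hmem := rho_mem (m := r) hr1
  have hhalf : rho r ≤ 2 ^ (r - 1) := rho_le_of (cov_half (n := r) hr1)
  have hpr : (2:ℤ) ^ r = 2 * 2 ^ (r - 1) := by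
    rw [← pow_succ']; congr 1; omega
  have hpn : (2:ℤ) ^ n = 2 * 2 ^ (n - 1) := by
    rw [← pow_succ']; congr 1; omega
  have hpn' : (2:ℕ) ^ (n - 1) = 2 ^ t * (2 ^ t * 2 ^ (r - 1)) := by
    rw [← pow_add, ← pow_add]; congr 1; omega
  have hR : 2 ^ t * (2 ^ (r - 1) - rho r) ≤ 2 ^ (n - 1) := by
    rw [hpn']
    apply Nat.mul_le_mul_left
    calc 2 ^ (r - 1) - rho r ≤ 2 ^ (r - 1) := Nat.sub_le _ _
      _ = 1 * 2 ^ (r - 1) := (one_mul _).symm
      _ ≤ 2 ^ t * 2 ^ (r - 1) := Nat.mul_le_mul_right _ Nat.one_le_two_pow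
  have hcast : (((2 ^ (n - 1) - 2 ^ t * (2 ^ (r - 1) - rho r) : ℕ)) : ℤ) =
      2 ^ (n - 1) - 2 ^ t * (2 ^ (r - 1) - (rho r : ℤ)) := by
    rw [Nat.cast_sub hR, Nat.cast_mul, Nat.cast_sub hhalf]
    push_cast
    ring
  have hexp : (Fintype.card (Fin n) - (odd c).card) / 2 = t := by
    rw [Fintype.card_fin, hO]; exact ht'
  let e : odd c ≃ Fin r := Finset.equivFinOfCardEq hO
  constructor
  · intro f hf
    obtain ⟨a, ha⟩ := up n (Fin n) (Fintype.card_fin n) c f (symB_of hf)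
      (2 ^ r - 2 * (rho r : ℤ)) (by
        intro g
        obtain ⟨φ, hφ⟩ := (cov_iff (fun z : V r => g (z ∘ e)) (rho r)).1 (hmem _)
        obtain ⟨b, hb⟩ := exists_lin φ
        refine ⟨b ∘ e, ?_⟩
        rw [T_trans e g b, ← S_eq_T _ φ b hb]
        exact hφ)
    rw [hexp] at ha
    obtain ⟨φ, hφ⟩ := exists_form a
    apply (cov_iff f _).2
    refine ⟨φ, ?_⟩
    rw [S_eq_T f φ a hφ, hcast, hpn]
    rw [hpr] at ha
    linarith
  · intro r' hr'
    obtain ⟨g, hg⟩ := exists_far (m := r) hr1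
    have hlow := low n (Fin n) (Fintype.card_fin n) c (odd c) rfl
      (fun z => g (z ∘ e.symm)) (2 ^ r - 2 * (rho r : ℤ)) (by
        intro a
        have h1 : a = (a ∘ e.symm) ∘ e := by
          funext i
          simp
        rw [h1, T_trans e]
        have h2 : (fun z : Fin r → ZMod 2 => g ((z ∘ e) ∘ e.symm)) = g := by
          funext z
          congr 1
          funext i
          simp
        rw [h2]
        obtain ⟨φ, hφ⟩ := exists_form (a ∘ e.symm)
        rw [← S_eq_T g φ _ hφ]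
        exact hg φ)
    rw [hexp] at hlow
    obtain ⟨φ, hφ⟩ := (cov_iff _ r').1 (hr' _ (Fb_mem c (odd c) (fun z => g (z ∘ e.symm))))
    obtain ⟨b, hb⟩ := exists_lin φ
    rw [S_eq_T _ φ b hb] at hφ
    have h5 := hlow b
    have h6 : (((2 ^ (n - 1) - 2 ^ t * (2 ^ (r - 1) - rho r) : ℕ)) : ℤ) ≤ r' := by
      rw [hcast]
      rw [hpn] at hφ
      rw [hpr] at h5
      linarith
    exact_mod_cast h6

lemma rho_nine : rho 9 = 242 := by
  have h := Pool.Agent.H.MP_694475_co.covering_radius_nine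
  apply le_antisymm
  · apply rho_le_of
    intro f
    obtain ⟨g, ⟨b0, b, hg⟩, hd⟩ := h.1 f
    refine ⟨b0, b, ?_⟩
    have : g = fun x => b0 + ∑ i, b i * x i := funext hg
    rw [← this]
    exact hd
  · apply h.2
    intro f
    obtain ⟨b0, b, hb⟩ := rho_mem (m := 9) (by norm_num) f
    exact ⟨_, ⟨b0, b, fun x => rfl⟩, hb⟩

lemma rho_small (s : ℕ) (hs : s ≤ 3) : 2 ^ (2 * s) - rho (2 * s + 1) = 2 ^ s := by
  have hlow := cov_low s (rho (2 * s + 1)) (rho_mem (by omega))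
  have hup : rho (2 * s + 1) ≤ 2 ^ (2 * s) - 2 ^ s := by
    interval_cases s
    · exact rho_le_of cov_one
    · exact rho_le_of cov_three
    · exact rho_le_of (cov_large (n := 5) (by decide) (by norm_num) 0 (by norm_num))
    · exact rho_le_of (cov_large (n := 7) (by decide) (by norm_num) 1 (by norm_num))
  have h3 : 2 ^ s ≤ 2 ^ (2 * s) := Nat.pow_le_pow_right (by norm_num) (by omega)
  generalize 2 ^ (2 * s) = P at hlow hup h3 ⊢
  generalize 2 ^ s = Q at hlow hup h3 ⊢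
  omega

/-- Let `n` be odd, let the `n` variables be partitioned into blocks, and let `r` be the number of
blocks of odd size. Within the functions which are symmetric within every block the covering
radius of `RM(1, n)` is `2 ^ (n - 1) - 2 ^ ((n - r) / 2) * (2 ^ (r - 1) - rho r)`; explicitly it is
`2 ^ (n - 1) - 2 ^ ((n - 1) / 2)` for `r ≤ 8` and `2 ^ (n - 1) - 14 * 2 ^ ((n - 9) / 2)` for
`r = 9`. -/
theorem result (n : ℕ) (hn : Odd n) (c : Fin n → Fin n) (r : ℕ) (hr : oddBlocks c = r) :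
    IsCoveringRadiusOn (BlockSym c)
      (2 ^ (n - 1) - 2 ^ ((n - r) / 2) * (2 ^ (r - 1) - rho r)) ∧
    (r ≤ 8 → IsCoveringRadiusOn (BlockSym c) (2 ^ (n - 1) - 2 ^ ((n - 1) / 2))) ∧
    (r = 9 → IsCoveringRadiusOn (BlockSym c) (2 ^ (n - 1) - 14 * 2 ^ ((n - 9) / 2))) := by
  obtain ⟨h1, h2, h3, h4⟩ := core hn c hr
  refine ⟨h4, ?_, ?_⟩
  · intro h8
    obtain ⟨s, hs⟩ : ∃ s, r = 2 * s + 1 := ⟨r / 2, by omega⟩
    have hn2 : n % 2 = 1 := Nat.odd_iff.1 hn
    subst hs
    have e1 : 2 * s + 1 - 1 = 2 * s := by omega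
    rw [e1, rho_small s (by omega), ← pow_add] at h4
    have e : (n - (2 * s + 1)) / 2 + s = (n - 1) / 2 := by omega
    rwa [e] at h4
  · intro h9
    subst h9
    rw [rho_nine] at h4
    norm_num at h4
    rwa [mul_comm] at h4

end Pool.Agent.Results.MP_694475_co.SymmetricBlocks
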