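import Mathlib
import Pool.Agent.H.MP_694475_co.UBDigits

set_option autoImplicit false

namespace Pool.Agent.Results.MP_694475_co.UpperBound

/-- The covering radius of the first-order Reed–Muller code `RM(1, n)`: the least `r` such that
every Boolean function `f` on `F_2 ^ n` is at Hamming distance at most `r` from some affine
function `x ↦ b0 + ∑ i, b i * x i`. -/
noncomputable def rho (n : ℕ) : ℕ :=
  sInf {r : ℕ | ∀ f : (Fin n → ZMod 2) → ZMod 2, ∃ (b0 : ZMod 2) (b : Fin n → ZMod 2),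
    hammingDist f (fun x => b0 + ∑ i, b i * x i) ≤ r}

open Pool.Agent.H.MP_694475_co in
lemma sum_sgn_eq {n : ℕ} (f g : (Fin n → ZMod 2) → ZMod 2) :
    ∑ x, sgn (f x + g x) = 2 ^ n - 2 * (hammingDist f g : ℤ) := by
  have h1 : ∀ x, sgn (f x + g x) = 1 - 2 * (if f x ≠ g x then 1 else 0) := by
    intro x
    generalize f x = a
    generalize g x = b
    revert a b
    decide
  simp_rw [h1]
  rw [Finset.sum_sub_distrib, ← Finset.mul_sum]
  simp only [Finset.sum_const, Finset.card_univ, nsmul_eq_mul, mul_one]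
  rw [vcard]
  congr 2
  rw [hammingDist, Finset.card_filter]
  push_cast
  rfl

open Pool.Agent.H.MP_694475_co in
lemma rho_le {n : ℕ} (hn : Odd n) (hn5 : 5 ≤ n) (j : ℕ) (hj : (8 * j + 2) ^ 2 < 2 ^ n) :
    rho n ≤ 2 ^ (n - 1) - (4 * j + 4) := by
  apply Nat.sInf_le
  intro f
  obtain ⟨a, ha⟩ := walsh_lower hn hn5 j hj (fun x => sgn (f x)) (fun x => sgn_eq _)
  have hp : (2:ℕ) ^ n = 2 * 2 ^ (n - 1) := by
    rw [← pow_succ']; congr 1; omega
  have hpz : (2:ℤ) ^ n = 2 * 2 ^ (n - 1) := by exact_mod_cast hp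
  have key : ∀ b0 : ZMod 2, sgn b0 * W (fun x => sgn (f x)) a =
      2 ^ n - 2 * (hammingDist f (fun x => b0 + ∑ i, a i * x i) : ℤ) := by
    intro b0
    rw [← sum_sgn_eq]
    simp only [W]
    rw [Finset.mul_sum]
    apply Finset.sum_congr rfl
    intro x _
    rw [sgn_add, sgn_add]
    simp only [dot]
    ring
  have hb : ∀ d : ℕ, (8 * (j:ℤ) + 8) ≤ 2 ^ n - 2 * (d:ℤ) → d ≤ 2 ^ (n - 1) - (4 * j + 4) := by
    intro d hd
    rw [hpz] at hd
    have h2 : d + (4 * j + 4) ≤ 2 ^ (n - 1) := by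
      have : (d:ℤ) + (4 * j + 4) ≤ 2 ^ (n - 1) := by linarith
      exact_mod_cast this
    omega
  rcases le_abs.1 ha with h | h
  · refine ⟨0, a, hb _ ?_⟩
    rw [← key 0, sgn_zero, one_mul]
    exact h
  · refine ⟨1, a, hb _ ?_⟩
    rw [← key 1, sgn_one]
    linarith

open Pool.Agent.H.MP_694475_co in
/-- For odd `n ≥ 5` and every `j` with `8 j + 2 < 2 ^ (n / 2)` the covering radius of `RM(1, n)`
is at most `2 ^ (n - 1) - (4 j + 4)`; for infinitely many odd `n` this is two less than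
`2 ⌊2 ^ (n - 2) - 2 ^ (n / 2 - 2)⌋`; and the covering radius of `RM(1, 13)` is at most `4048`. -/
theorem result :
    (∀ n j : ℕ, Odd n → 5 ≤ n → (8 * j + 2) ^ 2 < 2 ^ n → rho n ≤ 2 ^ (n - 1) - (4 * j + 4)) ∧
    {n : ℕ | Odd n ∧ (rho n : ℤ) ≤
      2 * ⌊(2:ℝ) ^ ((n:ℝ) - 2) - (2:ℝ) ^ ((n:ℝ) / 2 - 2)⌋ - 2}.Infinite ∧
    rho 13 ≤ 4048 := by
  refine ⟨fun n j hn hn5 hj => rho_le hn hn5 j hj, ?_, ?_⟩
  · rw [Set.infinite_iff_exists_gt]
    intro N
    obtain ⟨m, hm, hm4⟩ := exists_digit (N + 5)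
    refine ⟨2 * m + 3, ⟨⟨m + 1, by ring⟩, ?_⟩, by omega⟩
    obtain ⟨j, hj⟩ : ∃ j, cc m = 4 * j + 1 := ⟨cc m / 4, by omega⟩
    have h1 := cc_lt m
    have h2 := lt_cc m
    rw [hj] at h1 h2
    have e : (2:ℕ) ^ (2 * m + 3) = 4 * 2 ^ (2 * m + 1) := by
      rw [show 2 * m + 3 = 2 + (2 * m + 1) by ring, pow_add]; norm_num
    have h3 : (8 * j + 2) ^ 2 < 2 ^ (2 * m + 3) := by rw [e]; nlinarith
    have h4 : 2 ^ (2 * m + 3) < (8 * j + 4) ^ 2 := by rw [e]; nlinarith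
    have hle := rho_le (n := 2 * m + 3) ⟨m + 1, by ring⟩ (by omega) j h3
    -- the real bound
    set R : ℝ := (2:ℝ) ^ (((2 * m + 3 : ℕ):ℝ) / 2) with hR
    have hR0 : 0 < R := by positivity
    have hRR : R ^ 2 = (2:ℝ) ^ (2 * m + 3) := by
      rw [hR, ← Real.rpow_natCast, ← Real.rpow_mul (by norm_num), ← Real.rpow_natCast 2 (2 * m + 3)]
      congr 1
      push_cast
      ring
    have hR1 : 8 * (j:ℝ) + 2 < R := by
      have : (8 * (j:ℝ) + 2) ^ 2 < R ^ 2 := by rw [hRR]; exact_mod_cast h3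
      exact lt_of_pow_lt_pow_left₀ 2 hR0.le this
    have hR2 : R < 8 * (j:ℝ) + 4 := by
      have : R ^ 2 < (8 * (j:ℝ) + 4) ^ 2 := by rw [hRR]; exact_mod_cast h4
      exact lt_of_pow_lt_pow_left₀ 2 (by positivity) this
    have e1 : (2:ℝ) ^ (((2 * m + 3 : ℕ):ℝ) - 2) = ((2 ^ (2 * m + 1) : ℤ) : ℝ) := by
      rw [show (((2 * m + 3 : ℕ):ℝ) - 2) = ((2 * m + 1 : ℕ) : ℝ) by push_cast; ring,
        Real.rpow_natCast]
      push_cast
      ring
    have e2 : (2:ℝ) ^ (((2 * m + 3 : ℕ):ℝ) / 2 - 2) = R / 4 := by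
      rw [hR, Real.rpow_sub (by norm_num)]
      norm_num
    have hfl : ⌊(2:ℝ) ^ (((2 * m + 3 : ℕ):ℝ) - 2) - (2:ℝ) ^ (((2 * m + 3 : ℕ):ℝ) / 2 - 2)⌋ =
        2 ^ (2 * m + 1) - (2 * (j:ℤ) + 1) := by
      rw [e1, e2, Int.floor_eq_iff]
      push_cast
      constructor <;> linarith
    rw [hfl]
    have hbig : 4 * j + 4 ≤ 2 ^ (2 * m + 2) := by
      have h5 : (2:ℕ) ^ (2 * m + 2) = 2 * 2 ^ (2 * m + 1) := by
        rw [show 2 * m + 2 = 1 + (2 * m + 1) by ring, pow_add]; norm_num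
      have hjpos : 0 < j := by
        rcases Nat.eq_zero_or_pos j with h0 | h0
        · rw [h0] at h2
          have : (2:ℕ) ^ 3 ≤ 2 ^ (2 * m + 1) := Nat.pow_le_pow_right (by norm_num) (by omega)
          norm_num at this h2
          omega
        · exact h0
      rw [h5]
      nlinarith
    have hle2 : rho (2 * m + 3) + (4 * j + 4) ≤ 2 ^ (2 * m + 2) := by
      have : 2 * m + 3 - 1 = 2 * m + 2 := by omega
      rw [this] at hle
      omega
    have h6 : (2:ℤ) ^ (2 * m + 2) = 2 * 2 ^ (2 * m + 1) := by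
      rw [show 2 * m + 2 = 1 + (2 * m + 1) by ring, pow_add]; norm_num
    have hle3 : (rho (2 * m + 3) : ℤ) + (4 * j + 4) ≤ 2 ^ (2 * m + 2) := by exact_mod_cast hle2
    rw [h6] at hle3
    linarith
  · have := rho_le (n := 13) (by decide) (by norm_num) 11 (by norm_num)
    norm_num at this
    exact this

end Pool.Agent.Results.MP_694475_co.UpperBound
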